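import Pool.Agent.Q240.Dom.Stab
import Pool.Agent.TH669.J647

set_option autoImplicit false

/-!
Ordered cliques, blow-ups, and the marginals of uniformly random tuples.
-/

namespace Pool.Agent.Q240.Mex

open Finset Pool.Agent.TH477.PA Pool.Agent.TH669.J647 Pool.Agent.Q240.Dom

theorem T_rec {V : Type} (G : SimpleGraph V) (W : Finset V) (k : ℕ) :
    T G.Adj W (k + 1) = ∑ a ∈ W, T G.Adj (nb G W a) k := by
  classical
  unfold T
  rw [sum_cons]
  refine Finset.sum_congr rfl fun a _ => ?_
  have h1 : Fintype.piFinset (fun _ : Fin k => nb G W a) =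
      (Fintype.piFinset (fun _ : Fin k => W)).filter (fun x => ∀ j, G.Adj a (x j)) := by
    ext x
    rw [Finset.mem_filter, Fintype.mem_piFinset, Fintype.mem_piFinset]
    constructor
    · intro h
      exact ⟨fun i => (mem_nb.1 (h i)).1, fun i => (mem_nb.1 (h i)).2⟩
    · intro h i
      exact mem_nb.2 ⟨h.1 i, h.2 i⟩
  rw [h1, Finset.sum_filter]
  refine Finset.sum_congr rfl fun x _ => ?_
  rw [ind_congr (PW_cons G.Adj a x), ind_and]
  by_cases h : ∀ j, G.Adj a (x j)
  · rw [if_pos h, ind_pos h, one_mul]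
  · rw [if_neg h, ind_neg h, zero_mul]

theorem T_eq {V : Type} (G : SimpleGraph V) (k : ℕ) : ∀ W : Finset V,
    T G.Adj W k = (k.factorial : ℝ) * ((KK G W k).card : ℝ) := by
  classical
  induction k with
  | zero =>
    intro W
    have h1 : KK G W 0 = {∅} := by
      ext S
      rw [mem_KK, Finset.mem_singleton]
      constructor
      · intro h
        exact Finset.card_eq_zero.1 h.1.2
      · rintro rfl
        exact ⟨⟨Finset.empty_subset _, rfl⟩, by simp⟩
    rw [h1]
    unfold T
    have h2 : ∀ x : Fin 0 → V, ind (PW G.Adj x) = 1 := fun x => ind_pos (fun i => i.elim0)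
    rw [Finset.sum_congr rfl fun x _ => h2 x]
    simp
  | succ k ih =>
    intro W
    rw [T_rec, Finset.sum_congr rfl fun a _ => ih (nb G W a), ← Finset.mul_sum]
    have h := sum_KK G W k
    have h2 : (∑ a ∈ W, ((KK G (nb G W a) k).card : ℝ)) =
        ((k : ℝ) + 1) * ((KK G W (k + 1)).card : ℝ) := by exact_mod_cast h
    rw [h2, Nat.factorial_succ]
    push_cast
    ring

/-- number of ordered cliques with `k` vertices -/
noncomputable def OC {V : Type} [Fintype V] (G : SimpleGraph V) (k : ℕ) : ℝ :=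
  ∑ x : Fin k → V, ind (PW G.Adj x)

theorem OC_eq {V : Type} [Fintype V] (G : SimpleGraph V) (k : ℕ) :
    OC G k = (k.factorial : ℝ) * ((KK G univ k).card : ℝ) := by
  classical
  rw [← T_eq]
  unfold OC T
  rw [Fintype.piFinset_univ]

theorem OC_nonneg {V : Type} [Fintype V] (G : SimpleGraph V) (k : ℕ) : 0 ≤ OC G k :=
  Finset.sum_nonneg fun _ _ => ind_nonneg _

theorem OC_le {V : Type} [Fintype V] (G : SimpleGraph V) (k : ℕ) :
    OC G k ≤ (Fintype.card V : ℝ) ^ k := by
  classical
  calc OC G k ≤ ∑ x : Fin k → V, (1 : ℝ) := Finset.sum_le_sum fun x _ => ind_le_one _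
    _ = _ := by simp

theorem OC_two {V : Type} [Fintype V] (G : SimpleGraph V) :
    OC G 2 = ∑ q : V × V, ind (G.Adj q.1 q.2) := by
  classical
  rw [OC_eq, ← Finset.univ_product_univ, Finset.sum_product, edges_eq]
  norm_num

/-- sums over tuples with values in a subset -/
theorem conv {V : Type} (W : Finset V) {ι : Type} [Fintype ι] [DecidableEq ι]
    (F : (ι → V) → ℝ) :
    ∑ y : ι → {v // v ∈ W}, F (fun i => (y i).1) = ∑ x ∈ Fintype.piFinset (fun _ : ι => W), F x := by
  classical
  refine Finset.sum_bij (fun y _ => fun i => (y i).1) ?_ ?_ ?_ ?_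
  · intro y _
    rw [Fintype.mem_piFinset]
    exact fun i => (y i).2
  · intro y _ z _ h
    funext i
    exact Subtype.ext (congrFun h i)
  · intro x hx
    rw [Fintype.mem_piFinset] at hx
    exact ⟨fun i => ⟨x i, hx i⟩, Finset.mem_univ _, rfl⟩
  · intro y _
    rfl

theorem OC_sub {V : Type} (G : SimpleGraph V) (W : Finset V) (k : ℕ) :
    OC (G.comap (Subtype.val : {v // v ∈ W} → V)) k =
      (k.factorial : ℝ) * ((KK G W k).card : ℝ) := by
  classical
  rw [← T_eq]
  unfold OC T
  exact conv W (fun x => ind (PW G.Adj x))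

/-- blow-up -/
theorem OC_blow {A : Type} [Fintype A] (G : SimpleGraph A) (b k : ℕ) :
    OC (G.comap (Prod.fst : A × Fin b → A)) k = (b : ℝ) ^ k * OC G k := by
  classical
  unfold OC
  have h1 : ∑ x : Fin k → A × Fin b, ind (PW (G.comap (Prod.fst : A × Fin b → A)).Adj x) =
      ∑ q : (Fin k → A) × (Fin k → Fin b), ind (PW G.Adj q.1) := by
    refine Fintype.sum_equiv (Equiv.arrowProdEquivProdArrow (Fin k) (fun _ => A)
      (fun _ => Fin b)) _ _ ?_
    intro x
    rfl
  rw [h1, ← Finset.univ_product_univ, Finset.sum_product]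
  simp only [Finset.sum_const, nsmul_eq_mul, Finset.card_univ, Fintype.card_fun, Fintype.card_fin]
  rw [← Finset.mul_sum]
  push_cast
  ring

/-- marginals of a uniformly random tuple -/
theorem marg {ι A V : Type} [Fintype ι] [Fintype A] [Fintype V] [DecidableEq A] [DecidableEq ι]
    (e : ι → A) (he : Function.Injective e) (F : (ι → V) → ℝ) :
    ∑ v : A → V, F (fun i => v (e i)) =
      (Fintype.card V : ℝ) ^ (Fintype.card A - Fintype.card ι) * ∑ x : ι → V, F x := by
  classical
  have h1 : ∑ v : A → V, F (fun i => v (e i)) =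
      ∑ q : ({a // a ∈ Set.range e} → V) × ({a // ¬ a ∈ Set.range e} → V),
        F (fun i => q.1 ⟨e i, Set.mem_range_self i⟩) := by
    refine Fintype.sum_equiv (Equiv.piEquivPiSubtypeProd (fun a => a ∈ Set.range e)
      (fun _ => V)) _ _ ?_
    intro v
    rfl
  rw [h1, ← Finset.univ_product_univ, Finset.sum_product]
  simp only [Finset.sum_const, nsmul_eq_mul, Finset.card_univ]
  rw [← Finset.mul_sum]
  have h2 : Fintype.card ({a // ¬ a ∈ Set.range e} → V) =
      (Fintype.card V) ^ (Fintype.card A - Fintype.card ι) := by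
    rw [Fintype.card_fun, Fintype.card_subtype_compl]
    congr 2
    exact (Fintype.card_congr (Equiv.ofInjective e he)).symm
  rw [h2]
  push_cast
  congr 1
  refine Fintype.sum_equiv (Equiv.arrowCongr (Equiv.ofInjective e he).symm (Equiv.refl V)) _ _ ?_
  intro y
  rfl

end Pool.Agent.Q240.Mex
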