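import Pool.Agent.Q240.Mex.Star

set_option autoImplicit false

/-!
Supersaturation for clique counts with a fixed number of edges: assembly.
-/

namespace Pool.Agent.Q240.Mex

open Finset Pool.Agent.TH477.PA Pool.Agent.TH669.J647 Pool.Agent.Q240.Dom

/-- deleting the vertices of small degree destroys few cliques -/
theorem del {V : Type} [Fintype V] (G : SimpleGraph V) (j : ℕ) (τ : ℝ) (hτ : 0 ≤ τ) (W : Finset V)
    (hW : ∀ a, a ∉ W → ((nb G univ a).card : ℝ) ≤ τ) :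
    (numCliques G (j + 2) : ℝ) ≤ ((KK G W (j + 2)).card : ℝ) + τ ^ j * (2 * numEdges G) := by
  classical
  rw [numCliques_eq]
  have h1 : KK G univ (j + 2) ⊆ KK G W (j + 2) ∪ (univ \ W).biUnion (fun a =>
      ((nb G univ a).powersetCard (j + 1)).image (fun S => insert a S)) := by
    intro S hS
    have hS' := mem_KK.1 hS
    by_cases hSW : S ⊆ W
    · exact Finset.mem_union_left _ (mem_KK.2 ⟨⟨hSW, hS'.1.2⟩, hS'.2⟩)
    · obtain ⟨a, haS, haW⟩ := Finset.not_subset.1 hSW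
      refine Finset.mem_union_right _ (Finset.mem_biUnion.2 ⟨a,
        Finset.mem_sdiff.2 ⟨Finset.mem_univ a, haW⟩, ?_⟩)
      refine Finset.mem_image.2 ⟨S.erase a, Finset.mem_powersetCard.2 ⟨?_, ?_⟩,
        Finset.insert_erase haS⟩
      · intro b hb
        obtain ⟨hba, hbS⟩ := Finset.mem_erase.1 hb
        exact mem_nb.2 ⟨Finset.mem_univ _, hS'.2 haS hbS (Ne.symm hba)⟩
      · rw [Finset.card_erase_of_mem haS, hS'.1.2]
        omega
  have h2 : (KK G univ (j + 2)).card ≤ (KK G W (j + 2)).card +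
      ∑ a ∈ univ \ W, ((nb G univ a).card) ^ (j + 1) := by
    refine (Finset.card_le_card h1).trans ((Finset.card_union_le _ _).trans ?_)
    refine Nat.add_le_add_left ?_ _
    refine Finset.card_biUnion_le.trans ?_
    refine Finset.sum_le_sum fun a _ => ?_
    refine Finset.card_image_le.trans ?_
    rw [Finset.card_powersetCard]
    exact Nat.choose_le_pow _ _
  have h3 : ((KK G univ (j + 2)).card : ℝ) ≤ ((KK G W (j + 2)).card : ℝ) +
      ∑ a ∈ univ \ W, ((nb G univ a).card : ℝ) ^ (j + 1) := by exact_mod_cast h2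
  refine h3.trans (add_le_add_right ?_ _)
  have h4 : ∑ a : V, ((nb G univ a).card : ℝ) = 2 * numEdges G := by
    rw [← OC_edges, OC_two, ← Finset.univ_product_univ, Finset.sum_product]
    exact Finset.sum_congr rfl fun a _ => card_nb G univ a
  rw [← h4, Finset.mul_sum]
  have h5 : ∑ a ∈ univ \ W, ((nb G univ a).card : ℝ) ^ (j + 1) ≤
      ∑ a ∈ univ \ W, τ ^ j * ((nb G univ a).card : ℝ) := by
    refine Finset.sum_le_sum fun a ha => ?_
    rw [pow_succ]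
    exact mul_le_mul_of_nonneg_right
      (pow_le_pow_left₀ (Nat.cast_nonneg _) (hW a (Finset.mem_sdiff.1 ha).2) j)
      (Nat.cast_nonneg _)
  refine h5.trans (Finset.sum_le_sum_of_subset_of_nonneg (Finset.subset_univ _) ?_)
  intro b _ _
  positivity

theorem arith_fin (F κ M y lam c e' γ γ0 P K : ℝ) (hF : 1 ≤ F) (hy : 0 < y) (hyK : y ≤ K)
    (hP : 1 ≤ P) (hc : 0 ≤ c) (he : e' ≤ P / y ^ 2) (hγ : γ ≤ γ0) (hγ0 : 0 ≤ γ0)
    (hstar : lam * (F * κ / y) ^ 2 ≤ (F * M) ^ 2 / P * (e' + c) + γ) :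
    lam * κ ^ 2 ≤ M ^ 2 * (1 + K ^ 2 * c) + γ0 * K ^ 2 := by
  have hF0 : 0 < F := by linarith
  have hP0 : 0 < P := by linarith
  have h1 : lam * κ ^ 2 = lam * (F * κ / y) ^ 2 * (y ^ 2 / F ^ 2) := by
    field_simp
  have h2 : 0 ≤ y ^ 2 / F ^ 2 := by positivity
  have h3 : (F * M) ^ 2 / P * (e' + c) + γ ≤ (F * M) ^ 2 / P * (P / y ^ 2 + c) + γ0 := by
    have h4 : 0 ≤ (F * M) ^ 2 / P := by positivity
    have h5 := mul_le_mul_of_nonneg_left (add_le_add_left he c) h4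
    linarith
  have h6 : lam * κ ^ 2 ≤ ((F * M) ^ 2 / P * (P / y ^ 2 + c) + γ0) * (y ^ 2 / F ^ 2) := by
    rw [h1]
    exact mul_le_mul_of_nonneg_right (hstar.trans h3) h2
  have h7 : ((F * M) ^ 2 / P * (P / y ^ 2 + c) + γ0) * (y ^ 2 / F ^ 2) =
      M ^ 2 * (1 + y ^ 2 / P * c) + γ0 * (y ^ 2 / F ^ 2) := by
    field_simp
  rw [h7] at h6
  have hyK2 : y ^ 2 ≤ K ^ 2 := pow_le_pow_left₀ hy.le hyK 2
  have h8 : y ^ 2 / P ≤ K ^ 2 := by
    rw [div_le_iff₀ hP0]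
    have : K ^ 2 * 1 ≤ K ^ 2 * P := mul_le_mul_of_nonneg_left hP (by positivity)
    linarith
  have h9 : y ^ 2 / F ^ 2 ≤ K ^ 2 := by
    rw [div_le_iff₀ (by positivity)]
    have h10 : 1 ≤ F ^ 2 := one_le_pow₀ hF
    have : K ^ 2 * 1 ≤ K ^ 2 * F ^ 2 := mul_le_mul_of_nonneg_left h10 (by positivity)
    linarith
  have h11 : M ^ 2 * (1 + y ^ 2 / P * c) ≤ M ^ 2 * (1 + K ^ 2 * c) := by
    refine mul_le_mul_of_nonneg_left ?_ (by positivity)
    have := mul_le_mul_of_nonneg_right h8 hc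
    linarith
  have h12 : γ0 * (y ^ 2 / F ^ 2) ≤ γ0 * K ^ 2 := mul_le_mul_of_nonneg_left h9 hγ0
  linarith

theorem arith_contra (κ M lam c γ0 K α ε : ℝ) (hε : 0 < ε) (hM : 0 ≤ M) (hκ : M + ε / 2 ≤ κ)
    (hκK : κ ≤ K) (hlam : 1 - α ≤ lam) (hα : 0 ≤ α) (hc : 0 ≤ c)
    (h : lam * κ ^ 2 ≤ M ^ 2 * (1 + K ^ 2 * c) + γ0 * K ^ 2)
    (h1 : α * K ^ 2 ≤ ε ^ 2 / 12) (h2 : K ^ 4 * c ≤ ε ^ 2 / 24) (h3 : γ0 * K ^ 2 ≤ ε ^ 2 / 16) :
    False := by
  have hκ0 : 0 ≤ κ := by linarith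
  have hK0 : 0 ≤ K := hκ0.trans hκK
  have hκ2 : κ ^ 2 ≤ K ^ 2 := pow_le_pow_left₀ hκ0 hκK 2
  have hM2 : M ^ 2 ≤ K ^ 2 := pow_le_pow_left₀ hM (by linarith) 2
  have h4 : (1 - α) * κ ^ 2 ≤ lam * κ ^ 2 := mul_le_mul_of_nonneg_right hlam (by positivity)
  have h5 : α * κ ^ 2 ≤ α * K ^ 2 := mul_le_mul_of_nonneg_left hκ2 hα
  have h6 : M ^ 2 * (K ^ 2 * c) ≤ K ^ 2 * (K ^ 2 * c) :=
    mul_le_mul_of_nonneg_right hM2 (by positivity)
  have h7 : ε ^ 2 / 4 ≤ κ ^ 2 - M ^ 2 := by nlinarith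
  nlinarith

theorem core (r s : ℕ) (hs : 3 ≤ s) (hrs : s ≤ r) (ε : ℝ) (hε : 0 < ε) (hε1 : ε ≤ 1) :
    ∃ δ : ℝ, 0 < δ ∧ ∃ m0 : ℕ, ∀ (V : Type) [Fintype V] (G : SimpleGraph V),
      m0 ≤ numEdges G →
      (mex s r (numEdges G) : ℝ) + ε * Real.sqrt (numEdges G) ^ s ≤ (numCliques G s : ℝ) →
      δ * Real.sqrt (numEdges G) ^ (r + 1) ≤ (numCliques G (r + 1) : ℝ) := by
  set K : ℝ := (8 / ε) ^ s with hK
  have h8 : 1 ≤ 8 / ε := by
    rw [le_div_iff₀ hε]; linarith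
  have hK1 : 1 ≤ K := one_le_pow₀ h8
  have hK0 : 0 < K := by linarith
  have hs' : (3 : ℝ) ≤ s := by exact_mod_cast hs
  obtain ⟨t1, ht1⟩ := exists_nat_gt (96 * (s : ℝ) ^ 2 * K ^ 4 / ε ^ 2)
  set t : ℕ := t1 + (s + s) + (r + 1) with htdef
  have ht0 : 0 < t := by omega
  have ht' : (0 : ℝ) < t := by exact_mod_cast ht0
  have htlow : 96 * (s : ℝ) ^ 2 * K ^ 4 / ε ^ 2 ≤ t := by
    refine ht1.le.trans ?_
    exact_mod_cast (by omega : t1 ≤ t)
  have htlow' : 96 * (s : ℝ) ^ 2 * K ^ 4 ≤ t * ε ^ 2 := by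
    rwa [div_le_iff₀ (by positivity)] at htlow
  set B : ℝ := (t : ℝ) ^ (r + 1) * (((r + 1).factorial : ℝ) * (2 / ε) ^ (r + 1)) with hB
  have hBpos : 0 < B := by
    have : (0 : ℝ) < ((r + 1).factorial : ℝ) := by exact_mod_cast Nat.factorial_pos _
    positivity
  set δ : ℝ := ε ^ 2 / (16 * K ^ 2 * B) with hδdef
  have hδ : 0 < δ := by positivity
  obtain ⟨m1, hm1⟩ := exists_nat_gt ((t : ℝ) + 32 * s * t * K ^ 2 / ε ^ 2)
  refine ⟨δ, hδ, m1 ^ 2 + 1, ?_⟩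
  intro V _ G hm hbig
  classical
  by_contra hcon
  have hfew : (numCliques G (r + 1) : ℝ) < δ * Real.sqrt (numEdges G) ^ (r + 1) := not_le.1 hcon
  set m : ℕ := numEdges G with hmdef
  have hmpos : 0 < m := by omega
  have hm' : (0 : ℝ) < m := by exact_mod_cast hmpos
  set R : ℝ := Real.sqrt m with hR
  have hRpos : 0 < R := Real.sqrt_pos.2 hm'
  have hRsq : R ^ 2 = m := Real.sq_sqrt hm'.le
  have hRm1 : (m1 : ℝ) ≤ R := by
    rw [hR]
    refine Real.le_sqrt_of_sq_le ?_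
    exact_mod_cast (by omega : m1 ^ 2 ≤ m)
  have hRlow : (t : ℝ) + 32 * s * t * K ^ 2 / ε ^ 2 ≤ R := hm1.le.trans hRm1
  have hRt : (t : ℝ) ≤ R := by
    have : 0 ≤ 32 * s * t * K ^ 2 / ε ^ 2 := by positivity
    linarith
  have hR2 : 32 * s * t * K ^ 2 ≤ R * ε ^ 2 := by
    have : 32 * s * t * K ^ 2 / ε ^ 2 ≤ R := by linarith
    rwa [div_le_iff₀ (by positivity)] at this
  -- vertices of large degree
  set W : Finset V := univ.filter (fun a => ε / 4 * R < ((nb G univ a).card : ℝ)) with hW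
  have hWdeg : ∀ a, a ∉ W → ((nb G univ a).card : ℝ) ≤ ε / 4 * R := by
    intro a ha
    by_contra h
    exact ha (Finset.mem_filter.2 ⟨Finset.mem_univ _, not_le.1 h⟩)
  have hsumdeg : ∑ a : V, ((nb G univ a).card : ℝ) = 2 * (m : ℝ) := by
    rw [hmdef, ← OC_edges, OC_two, ← Finset.univ_product_univ, Finset.sum_product]
    exact Finset.sum_congr rfl fun a _ => card_nb G univ a
  set N : ℝ := (W.card : ℝ) with hN
  have hN0 : 0 ≤ N := Nat.cast_nonneg _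
  have hNle : N ≤ 8 / ε * R := by
    have h1 : N * (ε / 4 * R) ≤ 2 * (m : ℝ) := by
      calc N * (ε / 4 * R) = ∑ a ∈ W, ε / 4 * R := by
            rw [Finset.sum_const, nsmul_eq_mul]
        _ ≤ ∑ a ∈ W, ((nb G univ a).card : ℝ) :=
            Finset.sum_le_sum fun a ha => (Finset.mem_filter.1 ha).2.le
        _ ≤ ∑ a : V, ((nb G univ a).card : ℝ) :=
            Finset.sum_le_sum_of_subset_of_nonneg (Finset.subset_univ _)
              fun _ _ _ => Nat.cast_nonneg _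
        _ = _ := hsumdeg
    rw [← hRsq] at h1
    have h2 : N * (ε / 4 * R) ≤ 8 / ε * R * (ε / 4 * R) := by
      have : 8 / ε * R * (ε / 4 * R) = 2 * R ^ 2 := by
        field_simp
        ring
      rw [this]; exact h1
    exact le_of_mul_le_mul_right h2 (by positivity)
  set kW : ℝ := ((KK G W s).card : ℝ) with hkW
  have hkW0 : 0 ≤ kW := Nat.cast_nonneg _
  set Mx : ℝ := (mex s r m : ℝ) with hMx
  have hMx0 : 0 ≤ Mx := Nat.cast_nonneg _
  have hkWlow : Mx + ε / 2 * R ^ s ≤ kW := by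
    obtain ⟨j, hj⟩ : ∃ j, s = j + 2 := ⟨s - 2, by omega⟩
    have h1 := del G j (ε / 4 * R) (by positivity) W hWdeg
    rw [← hj] at h1
    have h2 : (ε / 4 * R) ^ j * (2 * (numEdges G : ℝ)) ≤ ε / 2 * R ^ s := by
      rw [← hmdef, ← hRsq, mul_pow]
      have h3 : (ε / 4) ^ j ≤ ε / 4 :=
        pow_le_of_le_one (by positivity) (by linarith) (by omega)
      have h4 : R ^ s = R ^ j * R ^ 2 := by rw [hj, pow_add]
      rw [h4]
      have h5 : 0 ≤ R ^ j * R ^ 2 := by positivity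
      have h6 := mul_le_mul_of_nonneg_right h3 h5
      nlinarith
    linarith
  have hkWle : kW ≤ N ^ s := by
    have h1 : (KK G W s).card ≤ W.card ^ s := by
      have h2 : KK G W s ⊆ W.powersetCard s := by
        intro S hS
        exact Finset.mem_powersetCard.2 (mem_KK.1 hS).1
      refine (Finset.card_le_card h2).trans ?_
      rw [Finset.card_powersetCard]
      exact Nat.choose_le_pow _ _
    have h3 : ((KK G W s).card : ℝ) ≤ (W.card : ℝ) ^ s := by exact_mod_cast h1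
    exact h3
  have hRs : 0 < R ^ s := by positivity
  obtain ⟨κ, hκ⟩ : ∃ κ : ℝ, κ = kW / R ^ s := ⟨_, rfl⟩
  obtain ⟨M, hM⟩ : ∃ M : ℝ, M = Mx / R ^ s := ⟨_, rfl⟩
  obtain ⟨x, hx⟩ : ∃ x : ℝ, x = N / R := ⟨_, rfl⟩
  have hx0 : 0 ≤ x := by rw [hx]; exact div_nonneg hN0 hRpos.le
  have hM0 : 0 ≤ M := by rw [hM]; exact div_nonneg hMx0 hRs.le
  have hκlow : M + ε / 2 ≤ κ := by
    rw [hκ, hM, le_div_iff₀ hRs, add_mul, div_mul_cancel₀ _ hRs.ne']
    exact hkWlow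
  have hκx : κ ≤ x ^ s := by
    rw [hκ, hx, div_pow]
    exact div_le_div_of_nonneg_right hkWle hRs.le
  have hxK : x ≤ 8 / ε := by
    rw [hx, div_le_iff₀ hRpos]
    exact hNle
  have hyK : x ^ s ≤ K := pow_le_pow_left₀ hx0 hxK s
  have hxlow : ε / 2 ≤ x := by
    by_contra h
    have h1 : x < ε / 2 := not_le.1 h
    have h2 : x ^ s ≤ x := pow_le_of_le_one hx0 (by linarith) (by omega)
    linarith
  have hxpos : 0 < x := by linarith
  have hNpos : 0 < N := by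
    rcases hN0.eq_or_lt with h | h
    · rw [← h, zero_div] at hx
      linarith
    · exact h
  have hWpos : 0 < W.card := by
    have h1 : (0 : ℝ) < (W.card : ℝ) := hNpos
    exact_mod_cast h1
  -- the sampling inequality
  set Z : ℝ := Real.sqrt (2 * m) with hZ
  have hRZ : R ≤ Z := by
    rw [hR, hZ]
    exact Real.sqrt_le_sqrt (by linarith)
  have hZpos : 0 < Z := lt_of_lt_of_le hRpos hRZ
  have hs2t : (s : ℝ) ^ 2 * 96 * K ^ 2 ≤ t * ε ^ 2 := by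
    have h1 : K ^ 2 ≤ K ^ 4 := pow_le_pow_right₀ hK1 (by norm_num)
    have h2 : 0 ≤ 96 * (s : ℝ) ^ 2 := by positivity
    have h3 := mul_le_mul_of_nonneg_left h1 h2
    linarith
  have hs2t' : (s : ℝ) ^ 2 * 96 ≤ t * ε ^ 2 := by
    have h1 : 1 ≤ K ^ 2 := one_le_pow₀ hK1
    have h2 : 0 ≤ (s : ℝ) ^ 2 * 96 := by positivity
    have h3 := mul_le_mul_of_nonneg_left h1 h2
    linarith
  have hε2 : ε ^ 2 ≤ 1 := pow_le_one₀ hε.le hε1
  have hss : (s : ℝ) ^ 2 / t ≤ 1 := by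
    rw [div_le_one ht']
    have h1 : (t : ℝ) * ε ^ 2 ≤ t * 1 := mul_le_mul_of_nonneg_left hε2 ht'.le
    have h2 : 0 ≤ (s : ℝ) ^ 2 := by positivity
    linarith
  have hcardW : Fintype.card {v // v ∈ W} = W.card := Fintype.card_coe W
  have hst := star s r m t (by omega) (by omega) hmpos ht0 (by omega) (by omega) hss
    (hRt.trans hRZ) (V := {v // v ∈ W}) (by rw [hcardW]; exact hWpos)
    (G.comap (Subtype.val : {v // v ∈ W} → V))
  rw [OC_sub, OC_sub, OC_sub, hcardW] at hst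
  -- rewrite in the normalised variables
  have hNx : N = x * R := by
    rw [hx, div_mul_cancel₀ _ hRpos.ne']
  have hF1 : (1 : ℝ) ≤ (s.factorial : ℝ) := by exact_mod_cast Nat.factorial_pos s
  have e1 : (s.factorial : ℝ) * kW / N ^ s = (s.factorial : ℝ) * κ / x ^ s := by
    rw [hκ, hNx, mul_pow]
    field_simp
  have e2 : ((s.factorial : ℝ) * Mx) ^ 2 / (2 * (m : ℝ)) ^ s =
      ((s.factorial : ℝ) * M) ^ 2 / 2 ^ s := by
    rw [hM, ← hRsq, mul_pow 2 (R ^ 2) s, ← pow_mul, mul_comm 2 s, pow_mul]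
    field_simp
  have e3 : (((Nat.factorial 2 : ℕ) : ℝ) * ((KK G W 2).card : ℝ) / N ^ 2) ^ s ≤
      2 ^ s / (x ^ s) ^ 2 := by
    have h1 : ((KK G W 2).card : ℝ) ≤ R ^ 2 := by
      rw [hRsq, hmdef, numEdges_eq]
      exact_mod_cast Finset.card_le_card (KK_mono (Finset.subset_univ W) 2)
    have h2 : (((Nat.factorial 2 : ℕ) : ℝ) * ((KK G W 2).card : ℝ) / N ^ 2) ≤ 2 / x ^ 2 := by
      rw [hNx, mul_pow, div_le_div_iff₀ (by positivity) (by positivity)]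
      have h3 : ((Nat.factorial 2 : ℕ) : ℝ) = 2 := by norm_num [Nat.factorial]
      rw [h3]
      have h4 : 0 ≤ 2 * x ^ 2 := by positivity
      have h5 := mul_le_mul_of_nonneg_left h1 h4
      linarith
    calc (((Nat.factorial 2 : ℕ) : ℝ) * ((KK G W 2).card : ℝ) / N ^ 2) ^ s ≤
        (2 / x ^ 2) ^ s := pow_le_pow_left₀ (div_nonneg (mul_nonneg (Nat.cast_nonneg _)
          (Nat.cast_nonneg _)) (pow_nonneg hN0 2)) h2 s
      _ = _ := by rw [div_pow, ← pow_mul, ← pow_mul, mul_comm 2 s]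
  have e4 : (t : ℝ) ^ (r + 1) * (((r + 1).factorial : ℝ) * ((KK G W (r + 1)).card : ℝ) /
      N ^ (r + 1)) ≤ B * δ := by
    have h1 : ((KK G W (r + 1)).card : ℝ) ≤ δ * R ^ (r + 1) := by
      refine le_trans ?_ hfew.le
      rw [numCliques_eq]
      exact_mod_cast Finset.card_le_card (KK_mono (Finset.subset_univ W) (r + 1))
    have h2 : ((KK G W (r + 1)).card : ℝ) / N ^ (r + 1) ≤ δ * (2 / ε) ^ (r + 1) := by
      rw [hNx, mul_pow, div_le_iff₀ (by positivity)]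
      have h3 : 1 ≤ (2 / ε) ^ (r + 1) * x ^ (r + 1) := by
        rw [← mul_pow]
        refine one_le_pow₀ ?_
        rw [div_mul_eq_mul_div, le_div_iff₀ hε]
        linarith
      have h4 : δ * R ^ (r + 1) * 1 ≤ δ * R ^ (r + 1) * ((2 / ε) ^ (r + 1) * x ^ (r + 1)) :=
        mul_le_mul_of_nonneg_left h3 (by positivity)
      linarith
    have h5 : (0 : ℝ) ≤ (t : ℝ) ^ (r + 1) * ((r + 1).factorial : ℝ) := by positivity
    have h6 := mul_le_mul_of_nonneg_left h2 h5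
    have e5 : (t : ℝ) ^ (r + 1) * (((r + 1).factorial : ℝ) * ((KK G W (r + 1)).card : ℝ) /
        N ^ (r + 1)) = (t : ℝ) ^ (r + 1) * ((r + 1).factorial : ℝ) *
        (((KK G W (r + 1)).card : ℝ) / N ^ (r + 1)) := by ring
    rw [e5]
    refine h6.trans (le_of_eq ?_)
    rw [hB]; ring
  have hBδ : B * δ * K ^ 2 = ε ^ 2 / 16 := by
    rw [hδdef]; field_simp
  have hfin := arith_fin (s.factorial : ℝ) κ M (x ^ s)
    ((1 - t / Z) ^ (2 * s) * (1 - (s : ℝ) ^ 2 / t) ^ 2) (4 * (s : ℝ) ^ 2 / t)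
    ((((Nat.factorial 2 : ℕ) : ℝ) * ((KK G W 2).card : ℝ) / N ^ 2) ^ s)
    ((t : ℝ) ^ (r + 1) * (((r + 1).factorial : ℝ) * ((KK G W (r + 1)).card : ℝ) /
      N ^ (r + 1))) (B * δ) (2 ^ s) K hF1 (by positivity) hyK (one_le_pow₀ (by norm_num))
    (by positivity) e3 e4 (by positivity)
    (by rw [← e1, ← e2]; exact hst)
  refine arith_contra κ M ((1 - t / Z) ^ (2 * s) * (1 - (s : ℝ) ^ 2 / t) ^ 2)
    (4 * (s : ℝ) ^ 2 / t) (B * δ) K (2 * s * t / R + 2 * (s : ℝ) ^ 2 / t) ε hε hM0 hκlow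
    (hκx.trans hyK) ?_ (by positivity) (by positivity) hfin ?_ ?_ hBδ.le
  · -- the lower bound for the main factor
    have hA1 : 2 * s * t / R ≤ 1 := by
      rw [div_le_one hRpos]
      have h1 : 1 ≤ K ^ 2 := one_le_pow₀ hK1
      have h2 : R * ε ^ 2 ≤ R * 1 := mul_le_mul_of_nonneg_left hε2 hRpos.le
      have h3 : (s : ℝ) * t * 1 ≤ s * t * K ^ 2 := mul_le_mul_of_nonneg_left h1 (by positivity)
      have h4 : 0 ≤ (s : ℝ) * t := by positivity
      linarith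
    have hB1 : 2 * (s : ℝ) ^ 2 / t ≤ 1 := by
      rw [div_le_one ht']
      have h1 : (t : ℝ) * ε ^ 2 ≤ t * 1 := mul_le_mul_of_nonneg_left hε2 ht'.le
      have h2 : 0 ≤ (s : ℝ) ^ 2 := by positivity
      linarith
    have h1 : 1 - 2 * s * t / R ≤ (1 - t / Z) ^ (2 * s) := by
      have h2 : (t : ℝ) / Z ≤ 1 := (div_le_one hZpos).2 (hRt.trans hRZ)
      have h3 : (-2 : ℝ) ≤ -((t : ℝ) / Z) := by linarith
      have h4 := one_add_mul_le_pow h3 (2 * s)
      have h5 : (t : ℝ) / Z ≤ t / R := div_le_div_of_nonneg_left ht'.le hRpos hRZ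
      have h6 : 1 - 2 * s * t / R ≤ 1 + ((2 * s : ℕ) : ℝ) * -((t : ℝ) / Z) := by
        push_cast
        have h7 : 2 * (s : ℝ) * (t / Z) ≤ 2 * s * (t / R) :=
          mul_le_mul_of_nonneg_left h5 (by positivity)
        have h8 : 2 * (s : ℝ) * t / R = 2 * s * (t / R) := by ring
        rw [h8]
        linarith
      refine h6.trans (h4.trans (le_of_eq ?_))
      ring
    have h2 : 1 - 2 * (s : ℝ) ^ 2 / t ≤ (1 - (s : ℝ) ^ 2 / t) ^ 2 := by
      have h3 := sq_nonneg ((s : ℝ) ^ 2 / t)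
      have h4 : 2 * (s : ℝ) ^ 2 / t = 2 * ((s : ℝ) ^ 2 / t) := by ring
      rw [h4]
      nlinarith
    have h3 : (1 - 2 * s * t / R) * (1 - 2 * (s : ℝ) ^ 2 / t) ≤
        (1 - t / Z) ^ (2 * s) * (1 - (s : ℝ) ^ 2 / t) ^ 2 :=
      mul_le_mul h1 h2 (by linarith) (by
        have : (0 : ℝ) ≤ 1 - t / Z := by
          have h2 : (t : ℝ) / Z ≤ 1 := (div_le_one hZpos).2 (hRt.trans hRZ)
          linarith
        positivity)
    have h4 : 0 ≤ 2 * s * t / R * (2 * (s : ℝ) ^ 2 / t) := by positivity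
    nlinarith
  · have h1 : 2 * s * t / R * K ^ 2 ≤ ε ^ 2 / 16 := by
      rw [div_mul_eq_mul_div, div_le_iff₀ hRpos]
      linarith
    have h2 : 2 * (s : ℝ) ^ 2 / t * K ^ 2 ≤ ε ^ 2 / 48 := by
      rw [div_mul_eq_mul_div, div_le_iff₀ ht']
      linarith
    have h3 : 0 ≤ ε ^ 2 := by positivity
    rw [add_mul]
    linarith
  · rw [mul_div_assoc', div_le_iff₀ ht']
    linarith

end Pool.Agent.Q240.Mex
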