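import Pool.Agent.Q240.Mex.Moment

set_option autoImplicit false

/-!
The largest number of copies of `K_s` in a `K_{r+1}`-free graph with `m` edges.
-/

namespace Pool.Agent.Q240.Mex

open Finset Pool.Agent.TH477.PA Pool.Agent.TH669.J647 Pool.Agent.Q240.Dom

/-- The number of edges of `G`. -/
noncomputable def numEdges {V : Type} (G : SimpleGraph V) : ℕ := G.edgeSet.ncard

/-- The number of copies of `K_k` in `G`: vertex sets of size `k` which are cliques. -/
noncomputable def numCliques {V : Type} (G : SimpleGraph V) (k : ℕ) : ℕ :=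
  {S : Finset V | G.IsNClique k S}.ncard

/-- The largest number of copies of `K_s` in a finite `K_{r+1}`-free graph with `m` edges. -/
noncomputable def mex (s r m : ℕ) : ℕ :=
  sSup {k : ℕ | ∃ (V : Type) (_ : Fintype V) (G : SimpleGraph V),
    numEdges G = m ∧ G.CliqueFree (r + 1) ∧ numCliques G s = k}

theorem numCliques_eq {V : Type} [Fintype V] (G : SimpleGraph V) (k : ℕ) :
    numCliques G k = (KK G univ k).card := by
  classical
  unfold numCliques
  rw [← Set.ncard_coe_finset]
  congr 1
  ext S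
  rw [Finset.mem_coe, mem_KK, Set.mem_ofPred_eq, SimpleGraph.isNClique_iff]
  constructor
  · exact fun h => ⟨⟨Finset.subset_univ _, h.2⟩, h.1⟩
  · exact fun h => ⟨h.2, h.1.2⟩

theorem numEdges_eq {V : Type} [Fintype V] (G : SimpleGraph V) :
    numEdges G = (KK G univ 2).card := by
  classical
  have h1 := G.sum_degrees_eq_twice_card_edges
  have h2 : ∑ a ∈ (univ : Finset V), (KK G (nb G univ a) 1).card = 2 * (KK G univ 2).card :=
    sum_KK G univ 1
  have h3 : ∀ a : V, (KK G (nb G univ a) 1).card = G.degree a := by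
    intro a
    rw [KK_one, ← SimpleGraph.card_neighborFinset_eq_degree]
    congr 1
    ext y
    rw [mem_nb, SimpleGraph.mem_neighborFinset]
    simp
  rw [Finset.sum_congr rfl fun a _ => h3 a, h1] at h2
  unfold numEdges
  rw [Set.ncard_eq_toFinset_card']
  have h4 : G.edgeSet.toFinset = G.edgeFinset := rfl
  rw [h4]
  omega

theorem OC_edges {V : Type} [Fintype V] (G : SimpleGraph V) :
    OC G 2 = 2 * (numEdges G : ℝ) := by
  rw [OC_eq, numEdges_eq]
  norm_num

theorem OC_cliques {V : Type} [Fintype V] (G : SimpleGraph V) (k : ℕ) :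
    OC G k = (k.factorial : ℝ) * (numCliques G k : ℝ) := by
  rw [OC_eq, numCliques_eq]

theorem cliqueFree_iff {V : Type} [Fintype V] (G : SimpleGraph V) (k : ℕ) :
    G.CliqueFree k ↔ ∀ x : Fin k → V, ¬ PW G.Adj x := by
  classical
  have h1 : G.CliqueFree k ↔ (KK G univ k).card = 0 := by
    rw [Finset.card_eq_zero, Finset.eq_empty_iff_forall_notMem]
    constructor
    · intro h S hS
      have := mem_KK.1 hS
      exact h S ((SimpleGraph.isNClique_iff G).2 ⟨this.2, this.1.2⟩)
    · intro h S hS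
      have := (SimpleGraph.isNClique_iff G).1 hS
      exact h S (mem_KK.2 ⟨⟨Finset.subset_univ _, this.2⟩, this.1⟩)
  rw [h1]
  have h2 := OC_eq G k
  constructor
  · intro h x hx
    rw [h, Nat.cast_zero, mul_zero] at h2
    have h3 : ind (PW G.Adj x) ≤ OC G k :=
      Finset.single_le_sum (f := fun x => ind (PW G.Adj x)) (fun _ _ => ind_nonneg _)
        (Finset.mem_univ x)
    rw [ind_pos hx, h2] at h3
    norm_num at h3
  · intro h
    have h3 : OC G k = 0 := Finset.sum_eq_zero fun x _ => ind_neg (h x)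
    rw [h3] at h2
    have h4 : (k.factorial : ℝ) ≠ 0 := by exact_mod_cast Nat.factorial_ne_zero k
    have h5 : (((KK G univ k).card : ℕ) : ℝ) = 0 := by
      rcases mul_eq_zero.1 h2.symm with h | h
      · exact absurd h h4
      · exact h
    exact_mod_cast h5

/-- adjacency after adding `d` disjoint edges -/
def adjM {V : Type} (G : SimpleGraph V) (d : ℕ) :
    V ⊕ (Fin d × Bool) → V ⊕ (Fin d × Bool) → Prop
  | Sum.inl a, Sum.inl b => G.Adj a b
  | Sum.inr p, Sum.inr q => p.1 = q.1 ∧ p.2 ≠ q.2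
  | _, _ => False

/-- `G` with `d` disjoint edges added -/
def addM {V : Type} (G : SimpleGraph V) (d : ℕ) : SimpleGraph (V ⊕ (Fin d × Bool)) where
  Adj := adjM G d
  symm := ⟨by
    rintro (a | p) (b | q) h
    · exact G.symm.symm _ _ h
    · exact h
    · exact h
    · exact ⟨h.1.symm, fun h' => h.2 h'.symm⟩⟩
  loopless := ⟨by
    rintro (a | p) h
    · exact G.loopless.irrefl a h
    · exact h.2 rfl⟩

theorem OC_addM {V : Type} [Fintype V] (G : SimpleGraph V) (d : ℕ) :
    OC (addM G d) 2 = OC G 2 + 2 * d := by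
  classical
  rw [OC_two, OC_two, ← Finset.univ_product_univ, Finset.sum_product, ← Finset.univ_product_univ,
    Finset.sum_product, Fintype.sum_sum_type]
  have h1 : ∀ a : V, ∑ y : V ⊕ (Fin d × Bool), ind ((addM G d).Adj (Sum.inl a) y) =
      ∑ b : V, ind (G.Adj a b) := by
    intro a
    rw [Fintype.sum_sum_type]
    have h2 : ∑ q : Fin d × Bool, ind ((addM G d).Adj (Sum.inl a) (Sum.inr q)) = 0 :=
      Finset.sum_eq_zero fun q _ => ind_neg (fun h => h)
    rw [h2, add_zero]
    rfl
  have h3 : ∀ p : Fin d × Bool, ∑ y : V ⊕ (Fin d × Bool), ind ((addM G d).Adj (Sum.inr p) y) =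
      1 := by
    intro p
    rw [Fintype.sum_sum_type]
    have h2 : ∑ q : V, ind ((addM G d).Adj (Sum.inr p) (Sum.inl q)) = 0 :=
      Finset.sum_eq_zero fun q _ => ind_neg (fun h => h)
    rw [h2, zero_add]
    rw [Finset.sum_eq_single (p.1, !p.2)]
    · refine ind_pos ?_
      change p.1 = p.1 ∧ p.2 ≠ !p.2
      refine ⟨rfl, ?_⟩
      cases p.2 <;> simp
    · intro q _ hq
      refine ind_neg ?_
      intro h
      have h' : p.1 = q.1 ∧ p.2 ≠ q.2 := h
      apply hq
      refine Prod.ext h'.1.symm ?_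
      have h'' := h'.2
      revert h''
      cases p.2 <;> cases q.2 <;> simp
    · intro h
      exact absurd (Finset.mem_univ _) h
  rw [Finset.sum_congr rfl fun a _ => h1 a, Finset.sum_congr rfl fun p _ => h3 p]
  congr 1
  simp
  ring

theorem addM_free {V : Type} [Fintype V] (G : SimpleGraph V) (d r : ℕ) (hr : 2 ≤ r)
    (hG : G.CliqueFree (r + 1)) : (addM G d).CliqueFree (r + 1) := by
  classical
  rw [cliqueFree_iff] at hG ⊢
  intro x hx
  have hadj : ∀ i j, i ≠ j → (addM G d).Adj (x i) (x j) := by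
    intro i j hij
    rcases lt_or_gt_of_ne hij with h | h
    · exact hx i j h
    · exact ((addM G d).symm.symm _ _ (hx j i h))
  have hinl : ∀ i, ∃ a, x i = Sum.inl a := by
    intro i
    rcases hxi : x i with a | p
    · exact ⟨a, rfl⟩
    · exfalso
      obtain ⟨j, k, hij, hik, hjk⟩ : ∃ j k : Fin (r + 1), i ≠ j ∧ i ≠ k ∧ j ≠ k := by
        have hc : 2 < Fintype.card (Fin (r + 1)) := by rw [Fintype.card_fin]; omega
        have h2 : 1 < ((univ : Finset (Fin (r + 1))).erase i).card := by
          rw [Finset.card_erase_of_mem (Finset.mem_univ i), Finset.card_univ]; omega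
        obtain ⟨j, hj, k, hk, hjk⟩ := Finset.one_lt_card.1 h2
        exact ⟨j, k, (Finset.mem_erase.1 hj).1.symm, (Finset.mem_erase.1 hk).1.symm, hjk⟩
      have h1 := hadj i j hij
      have h2 := hadj i k hik
      have h3 := hadj j k hjk
      rw [hxi] at h1 h2
      rcases hxj : x j with b | q
      · rw [hxj] at h1; exact h1
      · rcases hxk : x k with c | q'
        · rw [hxk] at h2; exact h2
        · rw [hxj] at h1 h3
          rw [hxk] at h2 h3
          have h1' : p.1 = q.1 ∧ p.2 ≠ q.2 := h1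
          have h2' : p.1 = q'.1 ∧ p.2 ≠ q'.2 := h2
          have h3' : q.1 = q'.1 ∧ q.2 ≠ q'.2 := h3
          have e1 := h1'.2
          have e2 := h2'.2
          have e3 := h3'.2
          revert e1 e2 e3
          cases p.2 <;> cases q.2 <;> cases q'.2 <;> simp
  choose y hy using hinl
  refine hG y ?_
  intro i j hij
  have := hx i j hij
  rw [hy i, hy j] at this
  exact this

theorem cliques_addM {V : Type} [Fintype V] (G : SimpleGraph V) (d s : ℕ) :
    numCliques G s ≤ numCliques (addM G d) s := by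
  classical
  rw [numCliques_eq, numCliques_eq]
  have hinj : Function.Injective (Sum.inl : V → V ⊕ (Fin d × Bool)) := Sum.inl_injective
  refine Finset.card_le_card_of_injOn (fun S => S.map ⟨Sum.inl, hinj⟩) ?_ ?_
  · intro S hS
    have hS' := mem_KK.1 (Finset.mem_coe.1 hS)
    refine Finset.mem_coe.2 (mem_KK.2 ⟨⟨Finset.subset_univ _, ?_⟩, ?_⟩)
    · rw [Finset.card_map, hS'.1.2]
    · intro x hx y hy hxy
      obtain ⟨a, ha, rfl⟩ := Finset.mem_map.1 (Finset.mem_coe.1 hx)
      obtain ⟨b, hb, rfl⟩ := Finset.mem_map.1 (Finset.mem_coe.1 hy)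
      have hab : a ≠ b := fun h => hxy (by rw [h])
      exact hS'.2 ha hb hab
  · intro S _ S' _ h
    exact Finset.map_injective _ h

theorem cliques_bound {V : Type} [Fintype V] (G : SimpleGraph V) (s : ℕ) (hs : 2 ≤ s) :
    numCliques G s ≤ (2 * numEdges G) ^ s := by
  classical
  rw [numCliques_eq, numEdges_eq]
  set D : Finset V := univ.filter (fun a => 0 < (nb G univ a).card) with hD
  have h1 : KK G univ s ⊆ D.powersetCard s := by
    intro S hS
    have hS' := mem_KK.1 hS
    refine Finset.mem_powersetCard.2 ⟨?_, hS'.1.2⟩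
    intro a ha
    refine Finset.mem_filter.2 ⟨Finset.mem_univ _, ?_⟩
    have h2 : 1 < S.card := by omega
    obtain ⟨b, hb, hab⟩ := Finset.exists_mem_ne h2 a
    exact Finset.card_pos.2 ⟨b, mem_nb.2 ⟨Finset.mem_univ _, hS'.2 ha hb hab.symm⟩⟩
  have h3 : D.card ≤ 2 * (KK G univ 2).card := by
    have h4 : ∑ a ∈ (univ : Finset V), (KK G (nb G univ a) 1).card = 2 * (KK G univ 2).card :=
      sum_KK G univ 1
    rw [Finset.sum_congr rfl fun a _ => KK_one G (nb G univ a)] at h4
    have h5 : D.card ≤ ∑ a : V, (nb G univ a).card := by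
      calc D.card = ∑ a ∈ D, 1 := by simp
        _ ≤ ∑ a ∈ D, (nb G univ a).card :=
            Finset.sum_le_sum fun a ha => (Finset.mem_filter.1 ha).2
        _ ≤ _ := Finset.sum_le_sum_of_subset (Finset.subset_univ _)
    omega
  calc (KK G univ s).card ≤ (D.powersetCard s).card := Finset.card_le_card h1
    _ = D.card.choose s := Finset.card_powersetCard s D
    _ ≤ D.card ^ s := Nat.choose_le_pow _ _
    _ ≤ _ := Nat.pow_le_pow_left h3 s

theorem mex_bdd (s r m : ℕ) (hs : 2 ≤ s) :
    BddAbove {k : ℕ | ∃ (V : Type) (_ : Fintype V) (G : SimpleGraph V),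
      numEdges G = m ∧ G.CliqueFree (r + 1) ∧ numCliques G s = k} := by
  refine ⟨(2 * m) ^ s, ?_⟩
  rintro k ⟨V, hV, G, h1, _, rfl⟩
  rw [← h1]
  exact cliques_bound G s hs

/-- graphs with at most `m` edges -/
theorem le_mex (s r m : ℕ) (hs : 2 ≤ s) (hr : 2 ≤ r) {V : Type} [Fintype V] (G : SimpleGraph V)
    (he : numEdges G ≤ m) (hG : G.CliqueFree (r + 1)) : numCliques G s ≤ mex s r m := by
  classical
  refine (cliques_addM G (m - numEdges G) s).trans ?_
  refine le_csSup (mex_bdd s r m hs) ?_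
  refine ⟨_, inferInstance, addM G (m - numEdges G), ?_, addM_free G _ r hr hG, rfl⟩
  have h1 := OC_addM G (m - numEdges G)
  rw [OC_edges, OC_edges, Nat.cast_sub he] at h1
  have h2 : (numEdges (addM G (m - numEdges G)) : ℝ) = (m : ℝ) := by linarith
  exact_mod_cast h2

/-- blow-ups of a graph -/
theorem blow_mex (s r m b : ℕ) (hs : 2 ≤ s) (hr : 2 ≤ r) {A : Type} [Fintype A]
    (G : SimpleGraph A) (hG : G.CliqueFree (r + 1)) (he : (b : ℝ) ^ 2 * OC G 2 ≤ 2 * m) :
    (b : ℝ) ^ s * OC G s ≤ (s.factorial : ℝ) * (mex s r m : ℝ) := by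
  classical
  have h1 : (G.comap (Prod.fst : A × Fin b → A)).CliqueFree (r + 1) := by
    rw [cliqueFree_iff] at hG ⊢
    intro x hx
    exact hG (fun i => (x i).1) hx
  have h2 : numEdges (G.comap (Prod.fst : A × Fin b → A)) ≤ m := by
    have h3 := OC_blow G b 2
    rw [OC_edges (G.comap (Prod.fst : A × Fin b → A))] at h3
    have h4 : (numEdges (G.comap (Prod.fst : A × Fin b → A)) : ℝ) ≤ m := by linarith
    exact_mod_cast h4
  have h5 := le_mex s r m hs hr _ h2 h1
  have h6 := OC_blow G b s
  rw [OC_cliques (G.comap (Prod.fst : A × Fin b → A))] at h6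
  rw [← h6]
  refine mul_le_mul_of_nonneg_left ?_ (by positivity)
  exact_mod_cast h5

end Pool.Agent.Q240.Mex
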