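import Pool.Agent.Q240.Mex.Count

set_option autoImplicit false

/-!
Moments of the clique counts of random samples.
-/

namespace Pool.Agent.Q240.Mex

open Finset Pool.Agent.TH477.PA Pool.Agent.TH669.J647 Pool.Agent.Q240.Dom

/-- number of injective tuples -/
noncomputable def In (ι : Type) [Fintype ι] [DecidableEq ι] (t : ℕ) : ℝ :=
  ∑ f : ι → Fin t, ind (Function.Injective f)

theorem In_nonneg (ι : Type) [Fintype ι] [DecidableEq ι] (t : ℕ) : 0 ≤ In ι t :=
  Finset.sum_nonneg fun _ _ => ind_nonneg _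

theorem In_le (ι : Type) [Fintype ι] [DecidableEq ι] (t : ℕ) :
    In ι t ≤ (t : ℝ) ^ Fintype.card ι := by
  calc In ι t ≤ ∑ f : ι → Fin t, (1 : ℝ) := Finset.sum_le_sum fun x _ => ind_le_one _
    _ = _ := by simp

theorem In_eq (ι : Type) [Fintype ι] [DecidableEq ι] (t : ℕ) :
    In ι t = (t.descFactorial (Fintype.card ι) : ℝ) := by
  classical
  unfold In
  rw [← card_filter_ind]
  congr 1
  rw [← Fintype.card_subtype, Fintype.card_congr (Equiv.subtypeInjectiveEquivEmbedding ι (Fin t)),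
    Fintype.card_embedding_eq, Fintype.card_fin]

theorem In_lower (ι : Type) [Fintype ι] [DecidableEq ι] (t : ℕ) (ht : 0 < t) :
    (t : ℝ) ^ Fintype.card ι * (1 - (Fintype.card ι : ℝ) ^ 2 / t) ≤ In ι t := by
  set c := Fintype.card ι with hc
  have ht' : (0 : ℝ) < t := by exact_mod_cast ht
  rcases lt_or_ge t c with h | h
  · have h1 : (1 - (c : ℝ) ^ 2 / t) ≤ 0 := by
      have h2 : (t : ℝ) ≤ (c : ℝ) ^ 2 := by
        have h3 : (t : ℝ) ≤ c := by exact_mod_cast h.le
        have h4 : (1 : ℝ) ≤ c := by exact_mod_cast (by omega : 1 ≤ c)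
        nlinarith
      have : 1 ≤ (c : ℝ) ^ 2 / t := by
        rw [le_div_iff₀ ht']; linarith
      linarith
    refine le_trans (mul_nonpos_of_nonneg_of_nonpos (by positivity) h1) (In_nonneg ι t)
  · rw [In_eq]
    have h1 : (t + 1 - c) ^ c ≤ t.descFactorial c := Nat.pow_sub_le_descFactorial t c
    have h2 : ((t : ℝ) - c) ^ c ≤ (t.descFactorial c : ℝ) := by
      have h3 : (((t + 1 - c) ^ c : ℕ) : ℝ) ≤ (t.descFactorial c : ℝ) := by exact_mod_cast h1
      refine le_trans ?_ h3
      push_cast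
      refine pow_le_pow_left₀ ?_ ?_ c
      · have : (c : ℝ) ≤ t := by exact_mod_cast h
        linarith
      · rw [Nat.cast_sub (by omega)]
        push_cast
        linarith
    refine le_trans ?_ h2
    have h4 : ((t : ℝ) - c) ^ c = (t : ℝ) ^ c * (1 + (-(c : ℝ) / t)) ^ c := by
      rw [← mul_pow]
      congr 1
      field_simp
      ring
    rw [h4]
    refine mul_le_mul_of_nonneg_left ?_ (by positivity)
    have h5 : (-2 : ℝ) ≤ -(c : ℝ) / t := by
      rw [neg_div]
      have : (c : ℝ) / t ≤ 1 := by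
        rw [div_le_one ht']; exact_mod_cast h
      linarith
    have h6 := one_add_mul_le_pow h5 c
    refine le_trans (le_of_eq ?_) h6
    field_simp
    ring

variable {V : Type} [Fintype V]

theorem first_moment (G : SimpleGraph V) (t k : ℕ) :
    ∑ v : Fin t → V, OC (G.comap v) k =
      In (Fin k) t * (Fintype.card V : ℝ) ^ (t - k) * OC G k := by
  classical
  have h1 : ∀ v : Fin t → V, OC (G.comap v) k =
      ∑ e : Fin k → Fin t, ind (PW G.Adj (fun i => v (e i))) := fun v => rfl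
  rw [Finset.sum_congr rfl fun v _ => h1 v, Finset.sum_comm]
  unfold In
  rw [Finset.sum_mul, Finset.sum_mul]
  refine Finset.sum_congr rfl fun e _ => ?_
  by_cases he : Function.Injective e
  · rw [ind_pos he, one_mul]
    have h2 := marg e he (fun x : Fin k → V => ind (PW G.Adj x))
    rw [Fintype.card_fin, Fintype.card_fin] at h2
    exact h2
  · rw [ind_neg he, zero_mul, zero_mul]
    refine Finset.sum_eq_zero fun v _ => ?_
    apply ind_neg
    intro hPW
    apply he
    intro i j hij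
    by_contra hne
    rcases lt_or_gt_of_ne hne with h | h
    · have h3 : G.Adj (v (e i)) (v (e j)) := hPW i j h
      rw [hij] at h3
      exact G.loopless.irrefl _ h3
    · have h3 : G.Adj (v (e j)) (v (e i)) := hPW j i h
      rw [hij] at h3
      exact G.loopless.irrefl _ h3

/-- pairs of tuples -/
def pairEquiv (α : Type) (s : ℕ) : (Fin s ⊕ Fin s → α) ≃ (Fin s → α × α) :=
  (Equiv.sumArrowEquivProdArrow (Fin s) (Fin s) α).trans
    (Equiv.arrowProdEquivProdArrow (Fin s) (fun _ => α) (fun _ => α)).symm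

theorem pairEquiv_apply (α : Type) (s : ℕ) (x : Fin s ⊕ Fin s → α) (i : Fin s) :
    pairEquiv α s x i = (x (Sum.inl i), x (Sum.inr i)) := rfl

theorem s_moment (G : SimpleGraph V) (t s : ℕ) :
    ∑ v : Fin t → V, (OC (G.comap v) 2) ^ s ≤
      (t : ℝ) ^ (s + s) * (Fintype.card V : ℝ) ^ (t - (s + s)) * (OC G 2) ^ s +
        ((t : ℝ) ^ (s + s) - In (Fin s ⊕ Fin s) t) * (Fintype.card V : ℝ) ^ t := by
  classical
  set N : ℝ := (Fintype.card V : ℝ) with hN
  have h1 : ∀ v : Fin t → V, (OC (G.comap v) 2) ^ s =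
      ∑ e : Fin s → Fin t × Fin t, ∏ i, ind (G.Adj (v (e i).1) (v (e i).2)) := by
    intro v
    rw [OC_two, Fintype.sum_pow]
    rfl
  rw [Finset.sum_congr rfl fun v _ => h1 v, Finset.sum_comm]
  -- each term
  have h2 : ∀ f : Fin s ⊕ Fin s → Fin t,
      ∑ v : Fin t → V, ∏ i : Fin s, ind (G.Adj (v (f (Sum.inl i))) (v (f (Sum.inr i)))) ≤
        ind (Function.Injective f) * (N ^ (t - (s + s)) * (OC G 2) ^ s) +
          (1 - ind (Function.Injective f)) * N ^ t := by
    intro f
    by_cases hf : Function.Injective f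
    · rw [ind_pos hf, one_mul, sub_self, zero_mul, add_zero]
      have h3 := marg f hf (fun x : Fin s ⊕ Fin s → V =>
        ∏ i : Fin s, ind (G.Adj (x (Sum.inl i)) (x (Sum.inr i))))
      rw [Fintype.card_fin, Fintype.card_sum, Fintype.card_fin] at h3
      refine le_of_eq (h3.trans ?_)
      congr 1
      rw [OC_two, Fintype.sum_pow]
      exact Fintype.sum_equiv (pairEquiv V s) _ _ (fun x => rfl)
    · rw [ind_neg hf, zero_mul, zero_add, sub_zero, one_mul]
      calc ∑ v : Fin t → V, ∏ i : Fin s, ind (G.Adj (v (f (Sum.inl i))) (v (f (Sum.inr i)))) ≤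
          ∑ v : Fin t → V, (1 : ℝ) := by
            refine Finset.sum_le_sum fun v _ => ?_
            exact Finset.prod_le_one (fun i _ => ind_nonneg _) (fun i _ => ind_le_one _)
        _ = _ := by simp [hN]
  have h4 : ∑ e : Fin s → Fin t × Fin t, ∑ v : Fin t → V,
      ∏ i, ind (G.Adj (v (e i).1) (v (e i).2)) =
      ∑ f : Fin s ⊕ Fin s → Fin t, ∑ v : Fin t → V,
        ∏ i : Fin s, ind (G.Adj (v (f (Sum.inl i))) (v (f (Sum.inr i)))) :=
    (Fintype.sum_equiv (pairEquiv (Fin t) s) _ _ (fun x => rfl)).symm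
  rw [h4]
  refine (Finset.sum_le_sum fun f _ => h2 f).trans ?_
  rw [Finset.sum_add_distrib, ← Finset.sum_mul, ← Finset.sum_mul, Finset.sum_sub_distrib]
  have h5 : ∑ f : Fin s ⊕ Fin s → Fin t, (1 : ℝ) = (t : ℝ) ^ (s + s) := by simp
  have h6 : ∑ f : Fin s ⊕ Fin s → Fin t, ind (Function.Injective f) = In (Fin s ⊕ Fin s) t := rfl
  rw [h5, h6]
  have h7 : In (Fin s ⊕ Fin s) t ≤ (t : ℝ) ^ (s + s) := by
    have := In_le (Fin s ⊕ Fin s) t
    rwa [Fintype.card_sum, Fintype.card_fin] at this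
  have h8 : 0 ≤ N ^ (t - (s + s)) * (OC G 2) ^ s := by
    have := OC_nonneg G 2
    positivity
  have h9 := mul_le_mul_of_nonneg_right h7 h8
  linarith

end Pool.Agent.Q240.Mex
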