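import Pool.Agent.Q240.Mex.Mex

set_option autoImplicit false

/-!
The sampling inequality.
-/

namespace Pool.Agent.Q240.Mex

open Finset Pool.Agent.TH477.PA Pool.Agent.TH669.J647 Pool.Agent.Q240.Dom

theorem per_sample (s r m t : ℕ) (hs : 2 ≤ s) (hr : 2 ≤ r) (hm : 0 < m) (ht : 0 < t)
    (htm : (t : ℝ) ≤ Real.sqrt (2 * m)) {A : Type} [Fintype A] (hA : Fintype.card A = t)
    (H : SimpleGraph A) (hH : H.CliqueFree (r + 1)) :
    (1 - t / Real.sqrt (2 * m)) ^ (2 * s) * (OC H s) ^ 2 ≤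
      ((s.factorial : ℝ) * (mex s r m : ℝ)) ^ 2 * (OC H 2 / (2 * m)) ^ s := by
  have hm' : (0 : ℝ) < m := by exact_mod_cast hm
  have h2m : (0 : ℝ) < 2 * m := by positivity
  have ht' : (0 : ℝ) < t := by exact_mod_cast ht
  set Z : ℝ := Real.sqrt (2 * m) with hZ
  have hZpos : 0 < Z := Real.sqrt_pos.2 h2m
  have hZsq : Z ^ 2 = 2 * m := Real.sq_sqrt h2m.le
  set ρ : ℝ := 1 - t / Z with hρ
  have hρ0 : 0 ≤ ρ := by
    rw [hρ]
    have : (t : ℝ) / Z ≤ 1 := (div_le_one hZpos).2 htm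
    linarith
  set E : ℝ := OC H 2 with hE
  have hE0 : 0 ≤ E := OC_nonneg H 2
  have hk0 : 0 ≤ OC H s := OC_nonneg H s
  rcases hE0.eq_or_lt with h0 | h0
  · have h1 : numEdges H = 0 := by
      have := OC_edges H
      rw [← hE, ← h0] at this
      have h2 : (numEdges H : ℝ) = 0 := by linarith
      exact_mod_cast h2
    have h2 : numCliques H s = 0 := by
      have := cliques_bound H s hs
      rw [h1, mul_zero, zero_pow (by omega)] at this
      omega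
    have h3 : OC H s = 0 := by
      rw [OC_cliques, h2]; simp
    rw [h3]
    have : 0 ≤ ((s.factorial : ℝ) * (mex s r m : ℝ)) ^ 2 * (E / (2 * m)) ^ s := by positivity
    simpa using this
  · have hEt : E ≤ (t : ℝ) ^ 2 := by
      have := OC_le H 2
      rwa [hA] at this
    set X : ℝ := Z / Real.sqrt E with hX
    have hsE : 0 < Real.sqrt E := Real.sqrt_pos.2 h0
    have hsE2 : Real.sqrt E ^ 2 = E := Real.sq_sqrt h0.le
    have hX0 : 0 < X := div_pos hZpos hsE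
    have hXsq : X ^ 2 = 2 * m / E := by
      rw [hX, div_pow, hZsq, hsE2]
    have hsEt : Real.sqrt E ≤ t := by
      rw [show (t : ℝ) = Real.sqrt ((t : ℝ) ^ 2) from (Real.sqrt_sq ht'.le).symm]
      exact Real.sqrt_le_sqrt hEt
    set b : ℕ := ⌊X⌋₊ with hb
    have hbX : (b : ℝ) ≤ X := Nat.floor_le hX0.le
    have hbX' : X < b + 1 := Nat.lt_floor_add_one X
    have hb0 : (0 : ℝ) ≤ b := Nat.cast_nonneg b
    have hbe : (b : ℝ) ^ 2 * E ≤ 2 * m := by
      have h1 : (b : ℝ) ^ 2 ≤ X ^ 2 := pow_le_pow_left₀ hb0 hbX 2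
      rw [hXsq, le_div_iff₀ h0] at h1
      exact h1
    have h4 := blow_mex s r m b hs hr H hH hbe
    have h5 : ρ * X ≤ b := by
      have h6 : 1 ≤ t / Z * X := by
        rw [hX]
        have : (t : ℝ) / Z * (Z / Real.sqrt E) = t / Real.sqrt E := by
          field_simp
        rw [this, le_div_iff₀ hsE]
        linarith
      have : ρ * X = X - t / Z * X := by rw [hρ]; ring
      rw [this]
      linarith
    have h7 : (ρ * X) ^ s * OC H s ≤ (s.factorial : ℝ) * (mex s r m : ℝ) :=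
      le_trans (mul_le_mul_of_nonneg_right (pow_le_pow_left₀ (by positivity) h5 s) hk0) h4
    have h8 : ((ρ * X) ^ s * OC H s) ^ 2 ≤ ((s.factorial : ℝ) * (mex s r m : ℝ)) ^ 2 :=
      pow_le_pow_left₀ (by positivity) h7 2
    have h9 : ((ρ * X) ^ s * OC H s) ^ 2 = ρ ^ (2 * s) * (OC H s) ^ 2 * (X ^ 2) ^ s := by
      rw [mul_pow, mul_pow, mul_pow, ← pow_mul, ← pow_mul, ← pow_mul, mul_comm s 2]
      ring
    have h10 : (X ^ 2) ^ s * (E / (2 * m)) ^ s = 1 := by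
      rw [← mul_pow, hXsq]
      have : 2 * (m : ℝ) / E * (E / (2 * m)) = 1 := by
        field_simp
      rw [this, one_pow]
    have h11 : 0 ≤ (E / (2 * m)) ^ s := by positivity
    calc ρ ^ (2 * s) * (OC H s) ^ 2 =
        ρ ^ (2 * s) * (OC H s) ^ 2 * ((X ^ 2) ^ s * (E / (2 * m)) ^ s) := by rw [h10, mul_one]
      _ = ((ρ * X) ^ s * OC H s) ^ 2 * (E / (2 * m)) ^ s := by rw [h9]; ring
      _ ≤ _ := mul_le_mul_of_nonneg_right h8 h11

theorem star (s r m t : ℕ) (hs : 2 ≤ s) (hr : 2 ≤ r) (hm : 0 < m) (ht : 0 < t)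
    (hts : s + s ≤ t) (htr : r + 1 ≤ t) (hss : (s : ℝ) ^ 2 / t ≤ 1)
    (htm : (t : ℝ) ≤ Real.sqrt (2 * m)) {V : Type} [Fintype V] (hV : 0 < Fintype.card V)
    (G : SimpleGraph V) :
    (1 - t / Real.sqrt (2 * m)) ^ (2 * s) * (1 - (s : ℝ) ^ 2 / t) ^ 2 *
        (OC G s / (Fintype.card V : ℝ) ^ s) ^ 2 ≤
      ((s.factorial : ℝ) * (mex s r m : ℝ)) ^ 2 / (2 * (m : ℝ)) ^ s *
          ((OC G 2 / (Fintype.card V : ℝ) ^ 2) ^ s + 4 * (s : ℝ) ^ 2 / t) +
        (t : ℝ) ^ (r + 1) * (OC G (r + 1) / (Fintype.card V : ℝ) ^ (r + 1)) := by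
  classical
  have hm' : (0 : ℝ) < m := by exact_mod_cast hm
  have h2m : (0 : ℝ) < 2 * m := by positivity
  have ht' : (0 : ℝ) < t := by exact_mod_cast ht
  set Z : ℝ := Real.sqrt (2 * m) with hZ
  have hZpos : 0 < Z := Real.sqrt_pos.2 h2m
  set ρ : ℝ := 1 - t / Z with hρ
  have hρ0 : 0 ≤ ρ := by
    rw [hρ]
    have : (t : ℝ) / Z ≤ 1 := (div_le_one hZpos).2 htm
    linarith
  have hρ1 : ρ ≤ 1 := by
    rw [hρ]
    have : 0 ≤ (t : ℝ) / Z := by positivity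
    linarith
  set N : ℝ := (Fintype.card V : ℝ) with hN
  have hNpos : 0 < N := by rw [hN]; exact_mod_cast hV
  set C : ℝ := ((s.factorial : ℝ) * (mex s r m : ℝ)) ^ 2 / (2 * (m : ℝ)) ^ s with hC
  have hC0 : 0 ≤ C := by positivity
  -- one sample
  have h1 : ∀ v : Fin t → V, ρ ^ (2 * s) * (OC (G.comap v) s) ^ 2 ≤
      C * (OC (G.comap v) 2) ^ s + (t : ℝ) ^ (2 * s) * OC (G.comap v) (r + 1) := by
    intro v
    have hr0 := OC_nonneg (G.comap v) (r + 1)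
    have he0 := OC_nonneg (G.comap v) 2
    have hk0 := OC_nonneg (G.comap v) s
    by_cases hfree : (G.comap v).CliqueFree (r + 1)
    · have h2 := per_sample s r m t hs hr hm ht htm (Fintype.card_fin t) (G.comap v) hfree
      have h3 : ((s.factorial : ℝ) * (mex s r m : ℝ)) ^ 2 * (OC (G.comap v) 2 / (2 * m)) ^ s =
          C * (OC (G.comap v) 2) ^ s := by
        rw [hC, div_pow]; ring
      rw [h3] at h2
      have h4 : 0 ≤ (t : ℝ) ^ (2 * s) * OC (G.comap v) (r + 1) := by positivity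
      linarith
    · rw [cliqueFree_iff] at hfree
      push Not at hfree
      obtain ⟨x, hx⟩ := hfree
      have h5 : 1 ≤ OC (G.comap v) (r + 1) := by
        have h3 : ind (PW (G.comap v).Adj x) ≤ OC (G.comap v) (r + 1) :=
          Finset.single_le_sum (f := fun x => ind (PW (G.comap v).Adj x))
            (fun _ _ => ind_nonneg _) (Finset.mem_univ x)
        rwa [ind_pos hx] at h3
      have h6 : OC (G.comap v) s ≤ (t : ℝ) ^ s := by
        have := OC_le (G.comap v) s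
        rwa [Fintype.card_fin] at this
      have h7 : (OC (G.comap v) s) ^ 2 ≤ (t : ℝ) ^ (2 * s) := by
        calc (OC (G.comap v) s) ^ 2 ≤ ((t : ℝ) ^ s) ^ 2 := pow_le_pow_left₀ hk0 h6 2
          _ = _ := by rw [← pow_mul, mul_comm]
      have h8 : ρ ^ (2 * s) ≤ 1 := pow_le_one₀ hρ0 hρ1
      have h9 : ρ ^ (2 * s) * (OC (G.comap v) s) ^ 2 ≤ 1 * (t : ℝ) ^ (2 * s) :=
        mul_le_mul h8 h7 (by positivity) zero_le_one
      have h10 : (t : ℝ) ^ (2 * s) * 1 ≤ (t : ℝ) ^ (2 * s) * OC (G.comap v) (r + 1) :=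
        mul_le_mul_of_nonneg_left h5 (by positivity)
      have h11 : 0 ≤ C * (OC (G.comap v) 2) ^ s := by positivity
      linarith
  -- sum over the samples
  have h2 : ρ ^ (2 * s) * ∑ v : Fin t → V, (OC (G.comap v) s) ^ 2 ≤
      C * ∑ v : Fin t → V, (OC (G.comap v) 2) ^ s +
        (t : ℝ) ^ (2 * s) * ∑ v : Fin t → V, OC (G.comap v) (r + 1) := by
    rw [Finset.mul_sum, Finset.mul_sum, Finset.mul_sum, ← Finset.sum_add_distrib]
    exact Finset.sum_le_sum fun v _ => h1 v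
  have h3 : (∑ v : Fin t → V, OC (G.comap v) s) ^ 2 ≤
      N ^ t * ∑ v : Fin t → V, (OC (G.comap v) s) ^ 2 := by
    have := sq_sum_le_card_mul_sum_sq (s := (univ : Finset (Fin t → V)))
      (f := fun v => OC (G.comap v) s)
    rw [Finset.card_univ, Fintype.card_fun, Fintype.card_fin] at this
    push_cast at this
    exact this
  rw [first_moment] at h3 h2
  have hsm := s_moment G t s
  set a : ℝ := OC G s / N ^ s with ha
  set e : ℝ := OC G 2 / N ^ 2 with he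
  set q : ℝ := OC G (r + 1) / N ^ (r + 1) with hq
  have ha0 : 0 ≤ a := div_nonneg (OC_nonneg G s) (by positivity)
  have he0 : 0 ≤ e := div_nonneg (OC_nonneg G 2) (by positivity)
  have hq0 : 0 ≤ q := div_nonneg (OC_nonneg G (r + 1)) (by positivity)
  have hNs : N ^ (t - s) * OC G s = N ^ t * a := by
    rw [ha, pow_sub₀ N hNpos.ne' (by omega : s ≤ t)]
    field_simp
  have hNe : N ^ (t - (s + s)) * (OC G 2) ^ s = N ^ t * e ^ s := by
    rw [he, pow_sub₀ N hNpos.ne' hts, div_pow, ← pow_mul, two_mul]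
    field_simp
  have hNq : N ^ (t - (r + 1)) * OC G (r + 1) = N ^ t * q := by
    rw [hq, pow_sub₀ N hNpos.ne' htr]
    field_simp
  -- the number of injective tuples
  have hI1 : (t : ℝ) ^ s * (1 - (s : ℝ) ^ 2 / t) ≤ In (Fin s) t := by
    have := In_lower (Fin s) t ht
    rwa [Fintype.card_fin] at this
  have hI2 : (t : ℝ) ^ (s + s) - In (Fin s ⊕ Fin s) t ≤ (t : ℝ) ^ (2 * s) * (4 * (s : ℝ) ^ 2 / t) := by
    have := In_lower (Fin s ⊕ Fin s) t ht
    rw [Fintype.card_sum, Fintype.card_fin] at this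
    push_cast at this
    have e1 : (t : ℝ) ^ (s + s) * (1 - ((s : ℝ) + s) ^ 2 / t) =
        (t : ℝ) ^ (2 * s) - (t : ℝ) ^ (2 * s) * (4 * (s : ℝ) ^ 2 / t) := by
      rw [← two_mul]; ring
    rw [e1] at this
    have e0 : (t : ℝ) ^ (s + s) = (t : ℝ) ^ (2 * s) := by rw [two_mul]
    rw [e0]
    linarith
  have hI3 : In (Fin (r + 1)) t ≤ (t : ℝ) ^ (r + 1) := by
    have := In_le (Fin (r + 1)) t
    rwa [Fintype.card_fin] at this
  have hI1' : 0 ≤ (t : ℝ) ^ s * (1 - (s : ℝ) ^ 2 / t) := by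
    have : 0 ≤ 1 - (s : ℝ) ^ 2 / t := by linarith
    positivity
  -- assemble
  have hA : (N ^ t * (t : ℝ) ^ s) ^ 2 *
      (ρ ^ (2 * s) * (1 - (s : ℝ) ^ 2 / t) ^ 2 * a ^ 2) ≤
      ρ ^ (2 * s) * (In (Fin s) t * N ^ (t - s) * OC G s) ^ 2 := by
    have e1 : In (Fin s) t * N ^ (t - s) * OC G s = In (Fin s) t * (N ^ t * a) := by
      rw [← hNs]; ring
    rw [e1]
    have e2 : (N ^ t * (t : ℝ) ^ s) ^ 2 * (ρ ^ (2 * s) * (1 - (s : ℝ) ^ 2 / t) ^ 2 * a ^ 2) =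
        ρ ^ (2 * s) * ((t : ℝ) ^ s * (1 - (s : ℝ) ^ 2 / t) * (N ^ t * a)) ^ 2 := by ring
    rw [e2]
    refine mul_le_mul_of_nonneg_left ?_ (by positivity)
    exact pow_le_pow_left₀ (by positivity) (mul_le_mul_of_nonneg_right hI1 (by positivity)) 2
  have hB : ρ ^ (2 * s) * (In (Fin s) t * N ^ (t - s) * OC G s) ^ 2 ≤
      N ^ t * (C * ∑ v : Fin t → V, (OC (G.comap v) 2) ^ s +
        (t : ℝ) ^ (2 * s) * (In (Fin (r + 1)) t * N ^ (t - (r + 1)) * OC G (r + 1))) := by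
    calc ρ ^ (2 * s) * (In (Fin s) t * N ^ (t - s) * OC G s) ^ 2 ≤
        ρ ^ (2 * s) * (N ^ t * ∑ v : Fin t → V, (OC (G.comap v) s) ^ 2) :=
          mul_le_mul_of_nonneg_left h3 (by positivity)
      _ = N ^ t * (ρ ^ (2 * s) * ∑ v : Fin t → V, (OC (G.comap v) s) ^ 2) := by ring
      _ ≤ _ := mul_le_mul_of_nonneg_left h2 (by positivity)
  have hD : C * ∑ v : Fin t → V, (OC (G.comap v) 2) ^ s ≤
      N ^ t * (t : ℝ) ^ (2 * s) * (C * (e ^ s + 4 * (s : ℝ) ^ 2 / t)) := by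
    have h5 : ∑ v : Fin t → V, (OC (G.comap v) 2) ^ s ≤
        N ^ t * (t : ℝ) ^ (2 * s) * (e ^ s + 4 * (s : ℝ) ^ 2 / t) := by
      refine hsm.trans ?_
      have e1 : (t : ℝ) ^ (s + s) * N ^ (t - (s + s)) * (OC G 2) ^ s =
          (t : ℝ) ^ (2 * s) * (N ^ t * e ^ s) := by
        rw [← hNe, two_mul]; ring
      rw [e1]
      have h6 := mul_le_mul_of_nonneg_right hI2 (show 0 ≤ N ^ t by positivity)
      have e3 : N ^ t * (t : ℝ) ^ (2 * s) * (e ^ s + 4 * (s : ℝ) ^ 2 / t) =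
          (t : ℝ) ^ (2 * s) * (N ^ t * e ^ s) +
            (t : ℝ) ^ (2 * s) * (4 * (s : ℝ) ^ 2 / t) * N ^ t := by ring
      rw [e3]
      linarith
    have h7 := mul_le_mul_of_nonneg_left h5 hC0
    refine h7.trans (le_of_eq (by ring))
  have hF : (t : ℝ) ^ (2 * s) * (In (Fin (r + 1)) t * N ^ (t - (r + 1)) * OC G (r + 1)) ≤
      N ^ t * (t : ℝ) ^ (2 * s) * ((t : ℝ) ^ (r + 1) * q) := by
    have e1 : (t : ℝ) ^ (2 * s) * (In (Fin (r + 1)) t * N ^ (t - (r + 1)) * OC G (r + 1)) =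
        In (Fin (r + 1)) t * ((t : ℝ) ^ (2 * s) * (N ^ t * q)) := by
      rw [← hNq]; ring
    rw [e1]
    have h6 := mul_le_mul_of_nonneg_right hI3
      (show 0 ≤ (t : ℝ) ^ (2 * s) * (N ^ t * q) by positivity)
    refine h6.trans (le_of_eq (by ring))
  have hG : (N ^ t * (t : ℝ) ^ s) ^ 2 *
      (ρ ^ (2 * s) * (1 - (s : ℝ) ^ 2 / t) ^ 2 * a ^ 2) ≤
      (N ^ t * (t : ℝ) ^ s) ^ 2 *
        (C * (e ^ s + 4 * (s : ℝ) ^ 2 / t) + (t : ℝ) ^ (r + 1) * q) := by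
    refine (hA.trans hB).trans ?_
    have h8 : N ^ t * (C * ∑ v : Fin t → V, (OC (G.comap v) 2) ^ s +
        (t : ℝ) ^ (2 * s) * (In (Fin (r + 1)) t * N ^ (t - (r + 1)) * OC G (r + 1))) ≤
        N ^ t * (N ^ t * (t : ℝ) ^ (2 * s) * (C * (e ^ s + 4 * (s : ℝ) ^ 2 / t)) +
          N ^ t * (t : ℝ) ^ (2 * s) * ((t : ℝ) ^ (r + 1) * q)) :=
      mul_le_mul_of_nonneg_left (add_le_add hD hF) (by positivity)
    refine h8.trans (le_of_eq ?_)
    have e1 : (N ^ t * (t : ℝ) ^ s) ^ 2 = N ^ t * (N ^ t * (t : ℝ) ^ (2 * s)) := by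
      rw [mul_pow, ← pow_mul (t : ℝ) s 2, mul_comm s 2]; ring
    rw [e1]
    ring
  exact le_of_mul_le_mul_left hG (by positivity)

end Pool.Agent.Q240.Mex
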